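import Pool.Agent.Y478.FL.Root

/-!
# MP_a73859_co: counterexamples to Jackson's conjecture of every order at least 11

For every `m` the graph `GS m` arises from the 11-vertex graph of the starting result
`JacksonFlowRoot` by adding `m` new vertices, each of them joined to the vertices `0, 1, 2`.  It is a
simple 3-connected graph with `11 + m` vertices and `27 + 3 m` edges, it is not eulerian,
`|E| - |V| + 1 = 17 + 2 m` is odd, and its flow polynomial has a root in `(3/2, 199/100)`.

The value of the flow polynomial is `q^(-11)` times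
`((q-1)(q-2))^m P₁ + (2-q)^m P₂ + 2^m P₃`, where `P₁, P₂, P₃` are the contributions of the
colourings in which the colours of `0, 1, 2` are all equal, take two values, are pairwise different.
All of `P₁ ≥ 0`, `P₂ ≥ P₁`, `P₃ > 0` hold at `3/2` and `P₁ ≥ 0`, `P₁ + P₂ ≤ 0`, `P₃ < 0` hold at
`199/100`.
-/

set_option autoImplicit false

namespace Pool.Agent.Results.MP_a73859_co.EveryOrder

open Pool.Agent.Helper103.Flow Pool.Agent.Y478.FL

/-- For every `n ≥ 11` there is a simple 3-connected graph with exactly `n` vertices and `3 n - 6`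
edges which is not eulerian and for which `|E| - |V| + 1` is odd, whose flow polynomial has a root
in the interval `(3/2, 199/100)`. -/
theorem result :
    ∀ n : ℕ, 11 ≤ n → ∃ (V : Type) (_ : Fintype V) (_ : DecidableEq V) (G : SimpleGraph V)
      (_ : DecidableRel G.Adj),
      Fintype.card V = n ∧
      ThreeConnected G ∧
      ¬ Eulerian G ∧
      G.edgeFinset.card = 3 * n - 6 ∧
      Odd ((G.edgeFinset.card : ℤ) - (Fintype.card V : ℤ) + 1) ∧
      ∃ q : ℝ, 3 / 2 < q ∧ q < 199 / 100 ∧ flowPoly G q = 0 := by
  intro n hn
  obtain ⟨m, rfl⟩ : ∃ m, n = 11 + m := ⟨n - 11, by omega⟩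
  refine ⟨Fin 11 ⊕ Fin m, inferInstance, inferInstance, GS m, inferInstance, ?_,
    threeConnected_GS m, not_eulerian_GS m, ?_, ?_, flow_root m⟩
  · rw [Fintype.card_sum, Fintype.card_fin, Fintype.card_fin]
  · rw [card_edges]
    omega
  · rw [card_edges, Fintype.card_sum, Fintype.card_fin, Fintype.card_fin]
    refine ⟨8 + m, ?_⟩
    push_cast
    ring

end Pool.Agent.Results.MP_a73859_co.EveryOrder
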